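import Pool.Agent.H11.HM.Hardy
import Pool.Agent.H67.HM.Stm2

set_option autoImplicit false

open MeasureTheory Filter Topology

namespace HM

open H11.HM

theorem RINV2_proved (hHOP : S_HOP) (hSCO : S_SCO) (hHPW : S_HPW) (hMOM : S_MOM) : S_RINV2 := by
  intro p _ h1 hp T hT M hM hinv
  obtain ⟨H, hH⟩ := hHOP p h1 hp
  have hc := hSCO p hp T hT
  have hHM : ∀ f ∈ M, H f ∈ M := by
    intro f hf
    obtain ⟨g, hg, hg'⟩ := hinv f hf
    have : H f = g := Lp.ext ((hH f).trans hg'.symm)
    rwa [this]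
  have hpow : ∀ n, ∀ f ∈ M, (H ^ n) f ∈ M := by
    intro n
    induction n with
    | zero => intro f hf; simpa using hf
    | succ n ih =>
      intro f hf
      rw [pow_succ', mul_apply_eq_comp]
      exact hHM _ (ih f hf)
  have key : ∀ (g : LpI p →L[ℂ] ℂ) (f : LpI p), (∀ n : ℕ, g ((H ^ (n + 1)) f) = 0) →
      ∀ t, 0 ≤ t → g (T t f) = 0 := by
    intro g f hg
    refine hMOM (1 - 1 / p.toReal) (fun t => g (T t f)) (‖g‖ * ‖f‖) (a_pos h1 hp)
      (g.continuous.comp_continuousOn (hc f)) ?_ ?_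
    · intro t ht
      exact (g.le_opNorm _).trans (mul_le_mul_of_nonneg_left (hT t ht f).2 (norm_nonneg _))
    · intro n
      have h3 := hHPW p h1 hp T H hT hc hH g f n
      rw [hg n] at h3
      have h4 : ∀ t : ℝ, ((t ^ n * Real.exp (-((1 - 1 / p.toReal) * t)) : ℝ) : ℂ) * g (T t f) =
          (n.factorial : ℂ) * (((t ^ n / n.factorial * Real.exp (-((1 - 1 / p.toReal) * t)) : ℝ) : ℂ) *
            g (T t f)) := by
        intro t
        have : (n.factorial : ℂ) ≠ 0 := by exact_mod_cast n.factorial_ne_zero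
        push_cast
        field_simp
      simp_rw [h4]
      rw [integral_const_mul, ← h3, mul_zero]
  refine ⟨?_, ?_⟩
  · intro r hr f hf
    by_contra hcon
    obtain ⟨g, hg, hg'⟩ := exists_dual_vanish M hM _ hcon
    exact hg' (key g f (fun n => hg _ (hpow (n + 1) f hf)) r hr)
  · intro f hf
    by_contra hcon
    have hsub : ((M.map (H : LpI p →ₗ[ℂ] LpI p)).topologicalClosure : Set (LpI p)) ⊆
        closure (M ∩ {f : LpI p | ∃ f₁ : LpI p, (f : ℝ → ℂ) =ᵐ[mu] hardyFun f₁}) := by
      rw [Submodule.topologicalClosure_coe]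
      refine closure_mono ?_
      rintro _ ⟨u, hu, rfl⟩
      exact ⟨hHM u hu, u, hH u⟩
    obtain ⟨g, hg, hg'⟩ := exists_dual_vanish (M.map (H : LpI p →ₗ[ℂ] LpI p)).topologicalClosure
      (Submodule.isClosed_topologicalClosure _) f (fun h => hcon (hsub h))
    have h5 := key g f (fun n => hg _ (Submodule.le_topologicalClosure _ (by
      rw [pow_succ', mul_apply_eq_comp]
      exact ⟨(H ^ n) f, hpow n f hf, rfl⟩))) 0 le_rfl
    have h6 : T 0 f = f := by
      refine Lp.ext ?_
      filter_upwards [(hT 0 le_rfl f).1] with x hx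
      rw [hx]
      unfold tfun
      simp
    rw [h6] at h5
    exact hg' h5

end HM
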